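import Pool.Agent.H128.Bend.Defs

set_option autoImplicit false
set_option linter.unusedSectionVars false

/-! Bend Y08 (`sub_down`) and Y11 (`join_noPS`). -/

namespace Pool.Agent.H124.BendY

open Pool.Agent.H128.Bend

variable {n m d e : ℕ}

theorem mem_subdiv {S : Finset (Finset (Fin n))} {a b : Fin n} {F : Finset (Fin (n + 1))} :
    F ∈ subdiv S a b ↔
      (∃ σ ∈ S, ¬ (a ∈ σ ∧ b ∈ σ) ∧ σ.map Fin.castSuccEmb = F) ∨
      (∃ σ ∈ S, ¬ (a ∈ σ ∧ b ∈ σ) ∧ insert a (insert b σ) ∈ S ∧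
        insert (Fin.last n) (σ.map Fin.castSuccEmb) = F) := by
  unfold subdiv
  rw [Finset.mem_union, Finset.mem_image, Finset.mem_image]
  constructor
  · rintro (⟨σ, h, h'⟩ | ⟨σ, h, h'⟩)
    · rw [Finset.mem_filter] at h
      exact Or.inl ⟨σ, h.1, h.2, h'⟩
    · rw [Finset.mem_filter] at h
      exact Or.inr ⟨σ, h.1, h.2.1, h.2.2, h'⟩
  · rintro (⟨σ, h, h1, h'⟩ | ⟨σ, h, h1, h2, h'⟩)
    · exact Or.inl ⟨σ, Finset.mem_filter.2 ⟨h, h1⟩, h'⟩
    · exact Or.inr ⟨σ, Finset.mem_filter.2 ⟨h, h1, h2⟩, h'⟩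

/-- Y08. -/
theorem sub_down {S : Finset (Finset (Fin n))} (hS : Down S) (a b : Fin n) :
    Down (subdiv S a b) := by
  intro F hF G hG
  rw [mem_subdiv] at hF ⊢
  rcases hF with ⟨σ, h, h1, rfl⟩ | ⟨σ, h, h1, h2, rfl⟩
  · obtain ⟨u, hu, rfl⟩ := Finset.subset_map_iff.1 hG
    exact Or.inl ⟨u, hS σ h u hu, fun hh => h1 ⟨hu hh.1, hu hh.2⟩, rfl⟩
  · by_cases hl : Fin.last n ∈ G
    · have h3 : G.erase (Fin.last n) ⊆ σ.map Fin.castSuccEmb := Finset.subset_insert_iff.1 hG
      obtain ⟨u, hu, hu'⟩ := Finset.subset_map_iff.1 h3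
      refine Or.inr ⟨u, hS σ h u hu, fun hh => h1 ⟨hu hh.1, hu hh.2⟩, hS _ h2 _ ?_, ?_⟩
      · exact Finset.insert_subset_insert _ (Finset.insert_subset_insert _ hu)
      · rw [← hu', Finset.insert_erase hl]
    · have h3 : G ⊆ σ.map Fin.castSuccEmb := by
        intro x hx
        rcases Finset.mem_insert.1 (hG hx) with rfl | hx'
        · exact absurd hx hl
        · exact hx'
      obtain ⟨u, hu, rfl⟩ := Finset.subset_map_iff.1 h3
      exact Or.inl ⟨u, hS σ h u hu, fun hh => h1 ⟨hu hh.1, hu hh.2⟩, rfl⟩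

theorem mem_join {S : Finset (Finset (Fin n))} {T : Finset (Finset (Fin m))}
    {F : Finset (Fin (n + m))} :
    F ∈ join S T ↔ ∃ σ ∈ S, ∃ τ ∈ T, σ.map (Fin.castAddEmb m) ∪ τ.map (Fin.natAddEmb n) = F := by
  unfold join
  rw [Finset.mem_image]
  constructor
  · rintro ⟨q, hq, rfl⟩
    rw [Finset.mem_product] at hq
    exact ⟨q.1, hq.1, q.2, hq.2, rfl⟩
  · rintro ⟨σ, hσ, τ, hτ, rfl⟩
    exact ⟨(σ, τ), Finset.mem_product.2 ⟨hσ, hτ⟩, rfl⟩

theorem join_down {S : Finset (Finset (Fin n))} {T : Finset (Finset (Fin m))} (hS : Down S)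
    (hT : Down T) : Down (join S T) := by
  intro F hF G hG
  rw [mem_join] at hF ⊢
  obtain ⟨σ, hσ, τ, hτ, rfl⟩ := hF
  obtain ⟨u, hu, hu'⟩ := Finset.subset_map_iff.1
    (Finset.inter_subset_right : G ∩ σ.map (Fin.castAddEmb m) ⊆ σ.map (Fin.castAddEmb m))
  obtain ⟨w, hw, hw'⟩ := Finset.subset_map_iff.1
    (Finset.inter_subset_right : G ∩ τ.map (Fin.natAddEmb n) ⊆ τ.map (Fin.natAddEmb n))
  refine ⟨u, hS σ hσ u hu, w, hT τ hτ w hw, ?_⟩
  rw [← hu', ← hw', ← Finset.inter_union_distrib_left]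
  exact Finset.inter_eq_left.2 hG

theorem castAdd_mem {σ : Finset (Fin n)} {τ : Finset (Fin m)} {x : Fin n} :
    Fin.castAdd m x ∈ σ.map (Fin.castAddEmb m) ∪ τ.map (Fin.natAddEmb n) ↔ x ∈ σ := by
  rw [Finset.mem_union, Finset.mem_map, Finset.mem_map]
  constructor
  · rintro (⟨y, hy, h⟩ | ⟨y, hy, h⟩)
    · rw [Fin.castAddEmb_apply] at h
      rw [← Fin.castAdd_injective n m h]
      exact hy
    · exfalso
      have := congrArg Fin.val h
      simp at this
      omega
  · intro h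
    exact Or.inl ⟨x, h, rfl⟩

theorem natAdd_mem {σ : Finset (Fin n)} {τ : Finset (Fin m)} {x : Fin m} :
    Fin.natAdd n x ∈ σ.map (Fin.castAddEmb m) ∪ τ.map (Fin.natAddEmb n) ↔ x ∈ τ := by
  rw [Finset.mem_union, Finset.mem_map, Finset.mem_map]
  constructor
  · rintro (⟨y, hy, h⟩ | ⟨y, hy, h⟩)
    · exfalso
      have := congrArg Fin.val h
      simp at this
      omega
    · rw [Fin.natAddEmb_apply] at h
      rw [← Fin.natAdd_injective m n h]
      exact hy
  · intro h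
    exact Or.inr ⟨x, h, rfl⟩

/-- Y11. -/
theorem join_noPS {S : Finset (Finset (Fin n))} {T : Finset (Finset (Fin m))}
    {p : Fin n → Fin d → ℝ} {q : Fin m → Fin e → ℝ} (hS : Down S) (hT : Down T)
    (hf : NoPS S p) (hg : NoPS T q) : Down (join S T) ∧ NoPS (join S T) (joinVec p q) := by
  refine ⟨join_down hS hT, fun A hA h0 hs => ?_⟩
  have h1 : A.submatrix (Fin.castAdd m) (Fin.castAdd m) = 0 := by
    refine hf _ (hA.submatrix _) (fun u v huv => ?_) fun u => ?_
    · rw [Matrix.submatrix_apply]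
      refine h0 _ _ fun hj => huv ?_
      obtain ⟨σ, hσ, τ, hτ, hst⟩ := mem_join.1 hj
      have : σ = {u, v} := by
        ext x
        rw [← castAdd_mem (τ := τ), hst]
        simp only [Finset.mem_insert, Finset.mem_singleton, (Fin.castAdd_injective n m).eq_iff]
      rw [← this]
      exact hσ
    · funext i
      have h := congrFun (hs (Fin.castAdd m u)) (Fin.castAdd e i)
      rw [Finset.sum_apply, Fin.sum_univ_add] at h
      rw [Finset.sum_apply]
      simpa [joinVec] using h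
  have h2 : A.submatrix (Fin.natAdd n) (Fin.natAdd n) = 0 := by
    refine hg _ (hA.submatrix _) (fun u v huv => ?_) fun u => ?_
    · rw [Matrix.submatrix_apply]
      refine h0 _ _ fun hj => huv ?_
      obtain ⟨σ, hσ, τ, hτ, hst⟩ := mem_join.1 hj
      have : τ = {u, v} := by
        ext x
        rw [← natAdd_mem (σ := σ), hst]
        simp only [Finset.mem_insert, Finset.mem_singleton, (Fin.natAdd_injective m n).eq_iff]
      rw [← this]
      exact hτ
    · funext i
      have h := congrFun (hs (Fin.natAdd n u)) (Fin.natAdd d i)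
      rw [Finset.sum_apply, Fin.sum_univ_add] at h
      rw [Finset.sum_apply]
      simpa [joinVec] using h
  have h3 : ∀ w, A w w = 0 := by
    intro w
    induction w using Fin.addCases with
    | left i => exact congrFun (congrFun h1 i) i
    | right i => exact congrFun (congrFun h2 i) i
  exact hA.trace_eq_zero_iff.1 (by
    unfold Matrix.trace
    exact Finset.sum_eq_zero fun w _ => h3 w)

end Pool.Agent.H124.BendY
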