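import Pool.Agent.H867.FT.Gen9

set_option autoImplicit false

namespace Pool.Agent.H124.FT867

open Pool.Agent.H867.FT

theorem fdv : S_FDV := by
  intro R S K K' _ _ _ _ _ _ _ _ _ _ _ _ j hj X hX hX0
  apply le_antisymm
  · rw [Submodule.span_le]
    rintro _ ⟨z, hz, rfl⟩
    rw [SetLike.mem_coe, Submodule.mem_div_iff_forall_mul_mem]
    intro v hv
    induction hv using Submodule.span_induction with
    | mem v hv =>
      obtain ⟨x, hx, rfl⟩ := hv
      obtain ⟨r, hr⟩ := Submodule.mem_one.mp
        ((Submodule.mem_div_iff_forall_mul_mem.mp (SetLike.mem_coe.mp hz)) x hx)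
      rw [← map_mul, ← hr, hj]
      exact Submodule.mem_one.mpr ⟨_, rfl⟩
    | zero => rw [mul_zero]; exact Submodule.zero_mem _
    | add a b _ _ ha hb => rw [mul_add]; exact add_mem ha hb
    | smul s a _ ha => rw [mul_smul_comm]; exact Submodule.smul_mem _ _ ha
  · intro y hy
    rw [Submodule.mem_div_iff_forall_mul_mem] at hy
    obtain ⟨n, x, hx⟩ := Submodule.fg_iff_exists_fin_generating_family.mp hX
    have hex : ∃ i0, x i0 ≠ 0 := by
      by_contra h
      push Not at h
      apply hX0
      rw [← hx, Submodule.span_eq_bot]
      rintro _ ⟨i, rfl⟩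
      exact h i
    obtain ⟨i0, hi0⟩ := hex
    have hxm : ∀ i, x i ∈ X := fun i => by rw [← hx]; exact Submodule.subset_span ⟨i, rfl⟩
    have hs : ∀ i, ∃ s : S, algebraMap S K' s = y * j (x i) := fun i =>
      Submodule.mem_one.mp (hy _ (Submodule.subset_span ⟨x i, hxm i, rfl⟩))
    choose s hs using hs
    obtain ⟨b, hb⟩ := IsLocalization.exist_integer_multiples_of_finite (nonZeroDivisors R) x
    choose a ha using hb
    have injK : Function.Injective (algebraMap R K) := IsFractionRing.injective R K
    have injK' : Function.Injective (algebraMap S K') := IsFractionRing.injective S K'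
    have hb0 : (algebraMap R K (b : R)) ≠ 0 := by
      rw [Ne, map_eq_zero_iff _ injK]
      exact nonZeroDivisors.coe_ne_zero b
    have rel : ∀ i, algebraMap R S (a i0) * s i = algebraMap R S (a i) * s i0 := by
      intro i
      apply injK'
      rw [map_mul, map_mul, ← hj, ← hj, hs, hs, ha, ha, Algebra.smul_def, Algebra.smul_def,
        map_mul, map_mul]
      ring
    let f : (Fin n → R) →ₗ[R] (Fin n → R) :=
      { toFun := fun v => a i0 • v - (∑ i, a i * v i) • (Pi.single i0 1 : Fin n → R)
        map_add' := by
          intro u v
          have : ∑ i, a i * (u + v) i = (∑ i, a i * u i) + ∑ i, a i * v i := by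
            rw [← Finset.sum_add_distrib]
            exact Finset.sum_congr rfl fun i _ => by rw [Pi.add_apply]; ring
          rw [this, smul_add, add_smul]; abel
        map_smul' := by
          intro c v
          have : ∑ i, a i * (c • v) i = c * ∑ i, a i * v i := by
            rw [Finset.mul_sum]
            exact Finset.sum_congr rfl fun i _ => by rw [Pi.smul_apply, smul_eq_mul]; ring
          rw [this, RingHom.id_apply, smul_sub, smul_smul, smul_smul, smul_smul, mul_comm c (a i0)] }
    let g : (Fin n → R) →ₗ[R] S :=
      { toFun := fun v => ∑ i, v i • s i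
        map_add' := by
          intro u v
          rw [← Finset.sum_add_distrib]
          exact Finset.sum_congr rfl fun i _ => by rw [Pi.add_apply, add_smul]
        map_smul' := by
          intro c v
          rw [RingHom.id_apply, Finset.smul_sum]
          exact Finset.sum_congr rfl fun i _ => by rw [Pi.smul_apply, smul_eq_mul, mul_smul] }
    have hg1 : ∀ i, g (Pi.single i 1) = s i := by
      intro i
      change ∑ l, (Pi.single i (1 : R) : Fin n → R) l • s l = s i
      rw [Finset.sum_eq_single i]
      · rw [Pi.single_eq_same, one_smul]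
      · intro l _ hl
        rw [Pi.single_eq_of_ne hl, zero_smul]
      · intro h; exact absurd (Finset.mem_univ _) h
    have hf1 : ∀ i, f (Pi.single i 1) =
        a i0 • (Pi.single i 1 : Fin n → R) - a i • (Pi.single i0 1 : Fin n → R) := by
      intro i
      change a i0 • (Pi.single i 1 : Fin n → R) -
        (∑ l, a l * (Pi.single i (1 : R) : Fin n → R) l) • (Pi.single i0 1 : Fin n → R) = _
      rw [Finset.sum_eq_single i]
      · rw [Pi.single_eq_same, mul_one]
      · intro l _ hl
        rw [Pi.single_eq_of_ne hl, mul_zero]
      · intro h; exact absurd (Finset.mem_univ _) h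
    have hgf : g ∘ₗ f = 0 := by
      refine LinearMap.pi_ext' fun i => ?_
      refine LinearMap.ext_ring ?_
      change g (f (Pi.single i 1)) = 0
      rw [hf1, map_sub, map_smul, map_smul, hg1, hg1, Algebra.smul_def, Algebra.smul_def, rel i,
        sub_self]
    obtain ⟨k, A, Y, hgYA, hAf⟩ := Module.Flat.exists_factorization_of_comp_eq_zero_of_free hgf
    have hA : ∀ i l, a i0 * A (Pi.single i 1) l = a i * A (Pi.single i0 1) l := by
      intro i l
      have h1 : A (f (Pi.single i 1)) = 0 := by
        have := LinearMap.congr_fun hAf (Pi.single i 1)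
        simpa using this
      rw [hf1, map_sub, map_smul, map_smul, sub_eq_zero] at h1
      have := DFunLike.congr_fun h1 l
      simpa using this
    have hY : ∀ v : Fin k →₀ R, Y v = ∑ l, v l • Y (Finsupp.single l 1) := by
      intro v
      conv_lhs => rw [← Finsupp.univ_sum_single v]
      rw [map_sum]
      refine Finset.sum_congr rfl fun l _ => ?_
      rw [← map_smul, Finsupp.smul_single, smul_eq_mul, mul_one]
    set r : Fin k → R := fun l => A (Pi.single i0 1) l with hr
    have hji0 : j (x i0) ≠ 0 := by
      rw [Ne, map_eq_zero]; exact hi0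
    have hzx : ∀ i l, algebraMap R K (r l) / x i0 * x i =
        algebraMap R K (A (Pi.single i 1) l) := by
      intro i l
      rw [div_mul_eq_mul_div, div_eq_iff hi0]
      apply mul_left_cancel₀ hb0
      have h1 := congrArg (algebraMap R K) (hA i l)
      rw [map_mul, map_mul, ha, ha, Algebra.smul_def, Algebra.smul_def] at h1
      simp only [hr]
      linear_combination -h1
    have hz : ∀ l, algebraMap R K (r l) / x i0 ∈ (1 / X : Submodule R K) := by
      intro l
      rw [Submodule.mem_div_iff_forall_mul_mem]
      intro v hv
      rw [← hx] at hv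
      induction hv using Submodule.span_induction with
      | mem v hv =>
        obtain ⟨i, rfl⟩ := hv
        rw [hzx]
        exact Submodule.mem_one.mpr ⟨_, rfl⟩
      | zero => rw [mul_zero]; exact Submodule.zero_mem _
      | add a b _ _ ha hb => rw [mul_add]; exact add_mem ha hb
      | smul s a _ ha => rw [mul_smul_comm]; exact Submodule.smul_mem _ _ ha
    have hy2 : y = ∑ l, Y (Finsupp.single l 1) • j (algebraMap R K (r l) / x i0) := by
      apply mul_right_cancel₀ hji0
      rw [← hs i0, Finset.sum_mul, ← hg1 i0, hgYA, LinearMap.comp_apply, hY, map_sum]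
      refine Finset.sum_congr rfl fun l _ => ?_
      rw [Algebra.smul_def, Algebra.smul_def, map_mul, ← hj, map_div₀, mul_assoc,
        div_mul_cancel₀ _ hji0, mul_comm]
    rw [hy2]
    exact Submodule.sum_mem _ fun l _ => Submodule.smul_mem _ _
      (Submodule.subset_span ⟨_, hz l, rfl⟩)

end Pool.Agent.H124.FT867
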