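import Pool.Agent.H683.SC.PStm

/-!
# Project SC, `S_PPRG`: the program in polynomial time
-/

set_option autoImplicit false

namespace Pool.Agent.NPC.H124SC

open Turing Pool.Agent.H683.MC Pool.Agent.H633R2 Pool.Agent.H683.SC

variable {α : Type} [TEnc α]

theorem poly_low {hs : α → List Hc} (h : Poly hs) : Poly (fun a => low (hs a)) := by
  unfold low
  refine Poly.flatMap (l := hs) (F := fun _ h => if h.1 = true then
    [(h.2.1, none), (h.2.1, some h.2.2)] else [(h.2.1, some h.2.2)]) h ?_
  have h1 : Poly (fun p : α × Hc => p.2.1) := Poly.fst (Poly.snd Poly.id)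
  have h2 : Poly (fun p : α × Hc => p.2.2.1) := Poly.fst (Poly.snd (Poly.snd Poly.id))
  have h3 : Poly (fun p : α × Hc => p.2.2.2) := Poly.snd (Poly.snd (Poly.snd Poly.id))
  have h4 : Poly (fun p : α × Hc => [(p.2.2.1, some p.2.2.2)]) :=
    Poly.cons (Poly.pair h2 (Poly.some h3)) (Poly.const [])
  exact Poly.ite (Poly.decide_bool h1) (Poly.cons (Poly.pair h2 (Poly.const none)) h4) h4

/-- A triple. -/
theorem tri {b : Bool} {x y : α → ℕ} (hx : Poly x) (hy : Poly y) :
    Poly (fun a => ((b, x a, y a) : Hc)) := Poly.pair (Poly.const b) (Poly.pair hx hy)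

theorem pal_eq (K : ℕ) : ((List.range K).flatMap fun c => (true, c + 1, 0) ::
    (List.range (min c K)).map fun d => (false, c + 1, d + 1)) = pal K := by
  unfold pal
  refine List.flatMap_congr fun c hc => ?_
  rw [List.mem_range] at hc
  rw [Nat.min_eq_left hc.le]

theorem poly_pal {K : α → ℕ} (hK : UPoly K) : Poly (fun a => pal (K a)) := by
  refine Poly.congr (Poly.flatMap (l := fun a => List.range (K a))
    (F := fun a c => (true, c + 1, 0) ::
      (List.range (min c (K a))).map fun d => (false, c + 1, d + 1)) (UPoly.range hK) ?_)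
    fun a => pal_eq (K a)
  have hK' : UPoly (fun p : α × ℕ => K p.1) := UPoly.comp hK (Poly.fst Poly.id)
  have h1 : UPoly (fun p : α × ℕ => min p.2 (K p.1)) :=
    UPoly.of_le (Poly.min (Poly.snd Poly.id) hK'.toPoly) hK' fun p => min_le_right _ _
  refine Poly.cons (tri (Poly.succ (Poly.snd Poly.id)) (Poly.const 0)) ?_
  refine Poly.map (l := fun p : α × ℕ => List.range (min p.2 (K p.1)))
    (F := fun p d => (false, p.2 + 1, d + 1)) (UPoly.range h1) ?_
  exact tri (Poly.succ (Poly.snd (Poly.fst Poly.id))) (Poly.succ (Poly.snd Poly.id))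

theorem poly_rws {K g : α → ℕ} (hK : UPoly K) (hg : UPoly g) :
    Poly (fun a => rws (K a) (g a)) := by
  unfold rws
  refine Poly.map (l := fun a => List.range (g a)) (F := fun a i => (true, K a + 1 + i, 0))
    (UPoly.range hg) ?_
  have hK' : Poly (fun p : α × ℕ => K p.1) := Poly.comp hK.toPoly (Poly.fst Poly.id)
  exact tri (Poly.add (Poly.succ hK') (Poly.snd Poly.id)) (Poly.const 0)

theorem poly_oth {K X b : α → ℕ} (hK : UPoly K) (hX : Poly X) (hb : Poly b) :
    Poly (fun a => oth (K a) (X a) (b a)) := by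
  unfold oth
  refine Poly.map (l := fun a => (List.range (K a)).filter fun c => !decide (c = b a))
    (F := fun a c => (false, X a, c + 1)) ?_ ?_
  · refine Poly.filter (l := fun a => List.range (K a)) (p := fun a c => !decide (c = b a))
      (UPoly.range hK) ?_
    exact Poly.not (Poly.decide_eq (Poly.snd Poly.id) (Poly.comp hb (Poly.fst Poly.id)))
  · exact tri (Poly.comp hX (Poly.fst Poly.id)) (Poly.succ (Poly.snd Poly.id))

theorem poly_gad {K g : α → ℕ} {f : α → (ℕ × ℕ) × (ℕ × ℕ)} (hK : UPoly K) (hg : Poly g)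
    (hf : Poly f) : Poly (fun a => gad (K a) (g a) (f a)) := by
  unfold gad
  have k := hK.toPoly
  have k1 : Poly (fun a => K a + 1) := Poly.succ k
  have x : Poly (fun a => K a + 1 + g a) := Poly.add k1 hg
  have y : Poly (fun a => K a + 2 + g a) := Poly.add (Poly.add k (Poly.const 2)) hg
  have f1 : Poly (fun a => (f a).1.1) := Poly.fst (Poly.fst hf)
  have f2 : Poly (fun a => (f a).1.2) := Poly.snd (Poly.fst hf)
  have f3 : Poly (fun a => (f a).2.1) := Poly.fst (Poly.snd hf)
  have f4 : Poly (fun a => (f a).2.2) := Poly.snd (Poly.snd hf)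
  refine Poly.cons (tri x (Poly.add k1 f1)) (Poly.append (poly_oth hK x f2) ?_)
  refine Poly.cons (tri y (Poly.add k1 f3)) (Poly.append (poly_oth hK y f4) ?_)
  exact Poly.cons (tri x y) (Poly.const [])

theorem PPRG : S_PPRG := by
  intro α _ K g cf hK hg hcf
  refine poly_low (hs := fun a => prog (K a) (g a) (cf a)) ?_
  unfold prog
  refine Poly.append (poly_pal hK) (Poly.append (poly_rws hK hg) ?_)
  refine Poly.flatMap (l := cf) (F := fun a f => gad (K a) (g a) f) hcf ?_
  exact poly_gad (K := fun p : α × ((ℕ × ℕ) × (ℕ × ℕ)) => K p.1)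
    (g := fun p => g p.1) (f := fun p => p.2) (UPoly.comp hK (Poly.fst Poly.id))
    (Poly.comp hg.toPoly (Poly.fst Poly.id)) (Poly.snd Poly.id)

end Pool.Agent.NPC.H124SC
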